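import Pool.Agent.Helper31.CK.BridgeDiv

/-!
# Chow-Kuenneth decompositions of dominated varieties

The linear condition `Δ_*(l) ∈ (p₁^* l - p₂^* l)^2 · CH^{d-1}(X × X)` is stable under products,
multiples and images of dominant morphisms, it holds for hyperplane classes of hypersurfaces and
for divisors on surfaces with the Beauville-Voisin property, and it yields a self-dual
Chow-Kuenneth decomposition compatible with the Lefschetz operator of `l`.
-/

set_option autoImplicit false

open CategoryTheory MonoidalCategory

universe v u w w'

namespace Pool.Agent.Results.MP_524776_ag.DivisibleDominated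

open Pool.Agent.Helper31.CK.Plain

theorem result {V : Type u} [Category.{v} V] [CartesianMonoidalCategory V]
    {CH : V → Type w} [∀ X, CommRing (CH X)] [∀ X, Algebra ℚ (CH X)]
    {H : V → Type w'} [∀ X, AddCommGroup (H X)] [∀ X, Module ℚ (H X)]
    {D : ChowData V CH} {E : CohData V CH H} (hD : IsIntersectionTheory D)
    (hE : IsCohomology D E) {X : V} {l : CH X} (hl : l ∈ D.codim X 1)
    (HL : HardLefschetzClass D E X l) (h : Gen D X l) :
    ∃ π, IsLefschetzCK D E X (D.diagPush l) π ∧
      ∀ i ≤ 2 * D.dim X, D.tr (π i) = π (2 * D.dim X - i) :=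
  (h.divDiag hD).exists_ck hD hE hl HL

end Pool.Agent.Results.MP_524776_ag.DivisibleDominated
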