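import Pool.Agent.Helper31.FL.Bridge

/-!
# Chow-Kuenneth decompositions of sections in products of surfaces

`Gen` is the least class of pairs `(X, l)`, `l` a divisor class on `X`, which contains
* all points, curves and surfaces with an ample class,
* all `X` with an ample class whose dual Lefschetz operator is algebraic and whose cohomology below
  the middle degree is carried by finite-dimensional motives (for instance Calabi-Yau threefolds),
* all pairs with a Chow-Kuenneth decomposition compatible with the Lefschetz operator (for instance
  Hilbert schemes of points on K3 surfaces),

and is closed under multiples, products and under smooth complete intersections of divisors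
proportional to `l` and cyclic coverings branched along such divisors. Every `X` in this class has
a self-dual Chow-Kuenneth decomposition with hard Lefschetz isomorphisms of Chow motives
`h^{d-j}(X) → h^{d+j}(X)(j)`.

Example: smooth ample divisors in a product of two arbitrary surfaces.
-/

set_option autoImplicit false

open CategoryTheory MonoidalCategory CartesianMonoidalCategory
open Pool.Agent.Helper31.CK.Plain Pool.Agent.Helper41.CK4.Plain Pool.Agent.Helper31.FL.Plain

universe v u w w'

namespace Pool.Agent.Results.MP_524776_ag.FilteredLefschetz

theorem result {V : Type u} [Category.{v} V] [CartesianMonoidalCategory V]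
    {CH : V → Type w} [∀ X, CommRing (CH X)] [∀ X, Algebra ℚ (CH X)]
    {H : V → Type w'} [∀ X, AddCommGroup (H X)] [∀ X, Module ℚ (H X)]
    {D : ChowData V CH} {E : CohData V CH H} (hD : IsIntersectionTheory D)
    (hE : IsCohomology D E) (hV : IsVarietyTheory D E) (hL : LefschetzAxioms D E)
    {X : V} {l : CH X} (h : Helper31.FL.Plain.Gen D E X l) :
    ∃ π, IsFilteredLefschetzCK D E X (D.diagPush l) π :=
  h.exists_ck hD hE hV hL

end Pool.Agent.Results.MP_524776_ag.FilteredLefschetz
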