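import Pool.Agent.Helper31.HR.Bridge

/-!
# Chow-Kuenneth decompositions, twists, and surfaces in the middle range

Let `d = dim X`, `k ≥ 2`, and let `q = q ∘ q = q^t` be a correspondence of degree zero, for example
the diagonal. Suppose that

(1) up to a nilpotent correspondence, `q` is a combination `z` of correspondences
`h(X) → h(Y)(a - d) → h(X)` where, for each term, `dim Y ≤ 2`, or `Y` is finite (the homologically
trivial endomorphisms of `h(Y)` form a nilpotent ideal and the Kuenneth components of `Y` are
algebraic), or `2 a ≤ d + k`;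

(2) `J` is a set of degrees `j < d` such that `q` acts on `H^j(X)` as `f + w`, where `f` is a
combination of correspondences factoring through finite varieties, and `w = q ∘ w ∘ q` is a
combination of correspondences factoring through surfaces, curves and points which satisfies a
nontrivial polynomial equation over `ℚ` modulo the combinations of correspondences factoring through
finite varieties (`f` and `w` may depend on `j`).

Then `q` is a sum of orthogonal idempotents `π i` with `(π i)^t = π (2 d - i)`: one for each degree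
`i` with `|i - d| > k - 2` or `i ∈ J` or `2 d - i ∈ J`, which acts as `q` on `H^i(X)` and as `0` on
the rest of the cohomology, and one, `π d`, for the remaining degrees together. If `q` is the
diagonal and `J` contains all `j` with `d - k + 2 ≤ j < d`, this is a self-dual Chow-Kuenneth
decomposition.

For a threefold one can take `k = d = 3` and `J = {2}`, and (1) holds with `z = q` the diagonal. If
`f i : X → S i`, `i = 1, 2`, are maps to surfaces such that `H^2(X)` is the sum of the
`f i^* H^2(S i)` and of a part on which a correspondence through finite varieties acts as the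
identity, and such that `X → S 1 × S 2` is generically finite onto its image, then (2) holds, with
`w ∘ w = w` modulo correspondences through curves.
-/

set_option autoImplicit false

open CategoryTheory MonoidalCategory CartesianMonoidalCategory
open Pool.Agent.Helper31.CK.Plain Pool.Agent.Helper41.CK5.Plain Pool.Agent.Helper31.HR.Plain

universe v u w w'

namespace Pool.Agent.Results.MP_524776_ag.HalfRangeAlgebraic

theorem result {V : Type u} [Category.{v} V] [CartesianMonoidalCategory V]
    {CH : V → Type w} [∀ X, CommRing (CH X)] [∀ X, Algebra ℚ (CH X)]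
    {H : V → Type w'} [∀ X, AddCommGroup (H X)] [∀ X, Module ℚ (H X)]
    {D : ChowData V CH} {E : CohData V CH H} (hD : IsIntersectionTheory D)
    (hE : IsCohomology D E) (hV : IsVarietyTheory D E) (hpt : ∃ x ∈ E.deg (𝟙_ V) 0, x ≠ 0)
    {X : V} {k : ℕ} (hk : 2 ≤ k)
    {q : CH (X ⊗ X)} (hq : q ∈ D.codim (X ⊗ X) (D.dim X)) (hqq : D.comp q q = q)
    (hqt : D.tr q = q) {z : CH (X ⊗ X)}
    (hz : z ∈ Submodule.span ℚ {w : CH (X ⊗ X) | ∃ (Y : V) (a : ℕ), FactorsThrough D X Y a w ∧
      (D.dim Y ≤ 2 ∨ IsFinite D E Y ∨ 2 * a ≤ D.dim X + k)})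
    (hn : ∃ n, D.cpow (q - z) n = 0)
    (J : Set ℤ) (hJ : ∀ j ∈ J, j < D.dim X ∧
      ∃ f ∈ FinitePart D E X, ∃ w ∈ SurfacePart D X, D.comp q (D.comp w q) = w ∧
        AlgebraicModFinite D E X w ∧ ∀ x ∈ E.deg X j, E.act (f + w) x = E.act q x) :
    ∃ π, IsPartialCK D E X q {j : ℤ | (D.dim X : ℤ) + 2 ≤ j + k ∧ j + 2 ≤ (D.dim X : ℤ) + k ∧
        j ∉ J ∧ 2 * (D.dim X : ℤ) - j ∉ J} π ∧
      (q = D.diagPush 1 → (∀ j : ℤ, (D.dim X : ℤ) + 2 ≤ j + k → j < D.dim X → j ∈ J) →
        IsCK D E X π) := by
  obtain ⟨π, hπ⟩ := Pool.Agent.Helper31.HR.Plain.plain_main hD hE hV hpt hk hq hqq hqt hz hn J hJ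
  refine ⟨π, hπ, ?_⟩
  rintro rfl hJ'
  exact hπ.isCK hD hE hJ'

end Pool.Agent.Results.MP_524776_ag.HalfRangeAlgebraic
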