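import Pool.Agent.Helper31.CK.BridgeTriple

/-!
# Lefschetz Chow-Kuenneth decompositions and lowering operators

`X` is an object of dimension `d ≥ 1` of an intersection theory with a cohomology theory, for
instance a smooth projective complex variety, and `e ∈ CH^{d+1}(X × X)` is a correspondence of
degree one whose action on cohomology satisfies hard Lefschetz, for instance `e = Δ_*(l)` with `l`
the class of an ample divisor.  We show that `X` has a Chow-Kuenneth decomposition compatible with
`e`, for which the powers of `e` are isomorphisms of Chow motives `h^{d-j}(X) → h^{d+j}(X)(j)`, if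
and only if the equation `[[e, f], e] = 2e`, which is LINEAR in `f`, has a solution
`f ∈ CH^{d-1}(X × X)`.
-/

set_option autoImplicit false

open CategoryTheory MonoidalCategory

universe v u w w'

namespace Pool.Agent.Results.MP_524776_ag.LefschetzTriple

open Pool.Agent.Helper31.CK.Plain

theorem result {V : Type u} [Category.{v} V] [CartesianMonoidalCategory V]
    {CH : V → Type w} [∀ X, CommRing (CH X)] [∀ X, Algebra ℚ (CH X)]
    {H : V → Type w'} [∀ X, AddCommGroup (H X)] [∀ X, Module ℚ (H X)]
    {D : ChowData V CH} {E : CohData V CH H} (hD : IsIntersectionTheory D)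
    (hE : IsCohomology D E) (X : V) (hX : 1 ≤ D.dim X) (e : CH (X ⊗ X))
    (he : e ∈ D.codim (X ⊗ X) (D.dim X + 1)) (HL : HardLefschetz D E X e) :
    ((∃ f, Lowering D X e f) ↔ ∃ π, IsLefschetzCK D E X e π) ∧
    (∀ π, IsLefschetzCK D E X e π → ∃ f, IsSl2 D X e f π) ∧
    (D.tr e = e → (∃ f, Lowering D X e f) →
      ∃ π, IsLefschetzCK D E X e π ∧ ∀ i ≤ 2 * D.dim X, D.tr (π i) = π (2 * D.dim X - i)) :=
  criterion hD hE X hX e he HL

end Pool.Agent.Results.MP_524776_ag.LefschetzTriple
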